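import Mathlib

set_option autoImplicit false

/-! Job G1: the cycle matroid of a graph does not depend on the field. -/

namespace Pool.Agent.Helper43_EOR

section Contract

variable {V : Type*} [DecidableEq V]

/-- Add the coordinate `b` to the coordinate `a` and delete the coordinate `b`. -/
private def contr (F : Type*) [Field F] (a b : V) : (V → F) →ₗ[F] (V → F) where
  toFun f v := if v = b then 0 else if v = a then f a + f b else f v
  map_add' f g := by
    funext v
    simp only [Pi.add_apply]
    split_ifs <;> ring
  map_smul' c f := by
    funext v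
    simp only [Pi.smul_apply, smul_eq_mul, RingHom.id_apply]
    split_ifs <;> ring

private theorem contr_apply (F : Type*) [Field F] (a b : V) (f : V → F) (v : V) :
    contr F a b f v = if v = b then 0 else if v = a then f a + f b else f v := rfl

private theorem contr_single (F : Type*) [Field F] {a b : V} (hab : a ≠ b) (x : V) :
    contr F a b (Pi.single x 1) = Pi.single (if x = b then a else x) 1 := by
  funext v
  rw [contr_apply]
  by_cases hxb : x = b
  · subst hxb
    rw [if_pos rfl]
    by_cases hvb : v = x
    · subst hvb
      rw [if_pos rfl, Pi.single_eq_of_ne (Ne.symm hab)]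
    · rw [if_neg hvb]
      by_cases hva : v = a
      · subst hva
        rw [if_pos rfl, Pi.single_eq_of_ne hab, Pi.single_eq_same, Pi.single_eq_same, zero_add]
      · rw [if_neg hva, Pi.single_eq_of_ne hvb, Pi.single_eq_of_ne hva]
  · rw [if_neg hxb]
    by_cases hvb : v = b
    · subst hvb
      rw [if_pos rfl, Pi.single_eq_of_ne (Ne.symm hxb)]
    · rw [if_neg hvb]
      by_cases hva : v = a
      · subst hva
        rw [if_pos rfl, Pi.single_eq_of_ne (Ne.symm hxb), add_zero]
      · rw [if_neg hva]

private theorem ker_contr (F : Type*) [Field F] {a b : V} (hab : a ≠ b) :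
    LinearMap.ker (contr F a b) =
      Submodule.span F {(Pi.single a 1 - Pi.single b 1 : V → F)} := by
  apply le_antisymm
  · intro f hf
    rw [LinearMap.mem_ker] at hf
    rw [Submodule.mem_span_singleton]
    refine ⟨f a, ?_⟩
    funext v
    have hv := congrFun hf v
    have ha := congrFun hf a
    rw [contr_apply, if_neg hab, if_pos rfl, Pi.zero_apply] at ha
    rw [contr_apply, Pi.zero_apply] at hv
    simp only [Pi.smul_apply, Pi.sub_apply, smul_eq_mul]
    by_cases hvb : v = b
    · subst hvb
      rw [Pi.single_eq_of_ne (Ne.symm hab), Pi.single_eq_same]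
      linear_combination -ha
    · by_cases hva : v = a
      · subst hva
        rw [Pi.single_eq_of_ne hab, Pi.single_eq_same]
        ring
      · rw [if_neg hvb, if_neg hva] at hv
        rw [Pi.single_eq_of_ne hvb, Pi.single_eq_of_ne hva, hv]
        ring
  · rw [Submodule.span_singleton_le_iff_mem, LinearMap.mem_ker, map_sub, contr_single F hab,
      contr_single F hab, if_neg hab, if_pos rfl, sub_self]

private theorem step {α : Type*} (F : Type*) [Field F] (p q : α → V) {e : α} {I : Set α}
    (he : e ∉ I) (hpq : p e ≠ q e) :
    LinearIndepOn F (fun i => (Pi.single (p i) 1 - Pi.single (q i) 1 : V → F)) (insert e I) ↔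
      LinearIndepOn F (fun i => (Pi.single (if p i = q e then p e else p i) 1 -
        Pi.single (if q i = q e then p e else q i) 1 : V → F)) I := by
  have hne : (Pi.single (p e) 1 - Pi.single (q e) 1 : V → F) ≠ 0 := by
    intro h
    have := congrFun h (p e)
    rw [Pi.sub_apply, Pi.single_eq_same, Pi.single_eq_of_ne hpq, Pi.zero_apply] at this
    simp at this
  rw [Set.insert_eq, linearIndepOn_union_iff_quotient (by simpa using he), Set.image_singleton]
  have h1 : LinearIndepOn F (fun i => (Pi.single (p i) 1 - Pi.single (q i) 1 : V → F)) {e} := by
    exact LinearIndepOn.singleton hne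
  rw [and_iff_right h1]
  set K := Submodule.span F {(Pi.single (p e) 1 - Pi.single (q e) 1 : V → F)} with hK
  have hker : K = LinearMap.ker (contr F (p e) (q e)) := (ker_contr F hpq).symm
  have hinj : LinearMap.ker (K.liftQ (contr F (p e) (q e)) hker.le) = ⊥ := by
    rw [Submodule.ker_liftQ_eq_bot]
    exact hker.ge
  have hcomp : (fun i => (Pi.single (if p i = q e then p e else p i) 1 -
        Pi.single (if q i = q e then p e else q i) 1 : V → F)) =
      (K.liftQ (contr F (p e) (q e)) hker.le) ∘
        (K.mkQ ∘ fun i => (Pi.single (p i) 1 - Pi.single (q i) 1 : V → F)) := by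
    funext i
    simp only [Function.comp_apply, Submodule.mkQ_apply, Submodule.liftQ_apply, map_sub,
      contr_single F hpq]
  rw [hcomp]
  exact (LinearMap.linearIndepOn_iff_of_injOn _
    (LinearMap.ker_eq_bot.mp hinj).injOn).symm

end Contract

theorem graph_indep {α V : Type*} [DecidableEq V] (p q : α → V) (F F' : Type) [Field F] [Field F']
    (I : Set α) (hI : I.Finite) :
    LinearIndepOn F (fun e => (Pi.single (p e) 1 - Pi.single (q e) 1 : V → F)) I ↔
      LinearIndepOn F' (fun e => (Pi.single (p e) 1 - Pi.single (q e) 1 : V → F')) I := by
  classical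
  induction I, hI using Set.Finite.induction_on generalizing p q with
  | empty => exact iff_of_true (linearIndepOn_empty F _) (linearIndepOn_empty F' _)
  | @insert e I he hI ih =>
    by_cases hpq : p e = q e
    · refine iff_of_false ?_ ?_
      · intro h
        have := h.ne_zero (Set.mem_insert e I)
        exact this (by simp [hpq])
      · intro h
        have := h.ne_zero (Set.mem_insert e I)
        exact this (by simp [hpq])
    · rw [step F p q he hpq, step F' p q he hpq]
      exact ih (fun i => if p i = q e then p e else p i) (fun i => if q i = q e then p e else q i)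

end Pool.Agent.Helper43_EOR
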